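import Pool.Agent.H53.GC.Targets

/-!
# The core
-/

set_option autoImplicit false

namespace Pool.Agent.H18.GC

open Pool.Agent.H53.GC

/-- A map of a finite set onto itself is a bijection of this set. -/
theorem bijOn_of_surjOn {X : Type} [Finite X] {A : Set X} {f : X → X} (h1 : Set.MapsTo f A A)
    (h2 : Set.SurjOn f A A) : Set.BijOn f A A := by
  refine ⟨h1, ?_, h2⟩
  have h3 : Function.Surjective (h1.restrict f A A) := by
    rintro ⟨y, hy⟩
    obtain ⟨x, hx, hxy⟩ := h2 hy
    exact ⟨⟨x, hx⟩, Subtype.ext hxy⟩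
  have h4 : Function.Injective (h1.restrict f A A) := Finite.injective_iff_surjective.2 h3
  intro x hx y hy hxy
  have h5 : (⟨x, hx⟩ : A) = ⟨y, hy⟩ := h4 (Subtype.ext hxy)
  exact congrArg Subtype.val h5

/-- The iterate of a bijection of a subset with a suitable exponent is the identity on it. -/
theorem iterate_factorial {X : Type} [Finite X] {A : Set X} {f : X → X} (h : Set.BijOn f A A)
    {x : X} (hx : x ∈ A) : f^[(Nat.card X).factorial] x = x := by
  classical
  have : Fintype A := Fintype.ofFinite A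
  let g : Equiv.Perm A := Equiv.ofBijective (h.mapsTo.restrict f A A) ⟨by
    intro a b hab
    exact Subtype.ext (h.injOn a.2 b.2 (congrArg Subtype.val hab)), by
    rintro ⟨y, hy⟩
    obtain ⟨x, hx, hxy⟩ := h.surjOn hy
    exact ⟨⟨x, hx⟩, Subtype.ext hxy⟩⟩
  have hg : ∀ n : ℕ, ∀ a : A, ((g ^ n) a : X) = f^[n] a := by
    intro n
    induction n with
    | zero => intro a; rfl
    | succ n ih =>
      intro a
      rw [pow_succ, Function.iterate_succ_apply]
      exact ih (g a)
  have h1 : g ^ (Nat.card X).factorial = 1 := by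
    have h2 : g ^ Fintype.card (Equiv.Perm A) = 1 := pow_card_eq_one
    rw [Fintype.card_perm] at h2
    have h3 : (Fintype.card A).factorial ∣ (Nat.card X).factorial := by
      apply Nat.factorial_dvd_factorial
      rw [← Nat.card_eq_fintype_card]
      exact Nat.card_le_card_of_injective Subtype.val Subtype.val_injective
    obtain ⟨m, hm⟩ := h3
    rw [hm, pow_mul, h2, one_pow]
  rw [← hg _ ⟨x, hx⟩, h1]
  rfl

theorem pf_COR : T_COR := by
  classical
  intro 𝓔 X 𝓛 _ _ R
  have : Fintype 𝓔 := Fintype.ofFinite 𝓔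
  let μ : (𝓔 → X → X) → ℕ := fun φ => ∑ e, Nat.card (Set.range (φ e))
  have hid : Fam1 R (fun _ x => x) := fun l p hp => hp
  obtain ⟨φ, hφ, hmin⟩ := WellFounded.has_min (measure μ).wf {φ | Fam1 R φ} ⟨fun _ x => x, hid⟩
  have hφ : Fam1 R φ := hφ
  let A : 𝓔 → Set X := fun e => Set.range (φ e)
  -- the main property of the minimal element
  have hbij : ∀ ψ, Fam1 R ψ → ∀ e, Set.BijOn (fun x => φ e (ψ e x)) (A e) (A e) := by
    intro ψ hψ e
    let χ : 𝓔 → X → X := fun e x => φ e (ψ e (φ e x))
    have hχ : Fam1 R χ := fun l p hp => hφ l _ (hψ l _ (hφ l p hp))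
    have hsub : ∀ e, Set.range (χ e) ⊆ Set.range (φ e) := by
      rintro e _ ⟨x, rfl⟩
      exact ⟨_, rfl⟩
    have hle : ∀ e, Nat.card (Set.range (χ e)) ≤ Nat.card (Set.range (φ e)) := fun e =>
      Nat.card_mono (Set.toFinite _) (hsub e)
    have heq : Set.range (χ e) = Set.range (φ e) := by
      by_contra hne
      have hlt : Nat.card (Set.range (χ e)) < Nat.card (Set.range (φ e)) := by
        refine lt_of_le_of_ne (hle e) (fun h => hne ?_)
        exact Set.eq_of_subset_of_ncard_le (hsub e) h.ge (Set.toFinite _)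
      refine hmin χ hχ ?_
      change μ χ < μ φ
      exact Finset.sum_lt_sum (fun e _ => hle e) ⟨e, Finset.mem_univ e, hlt⟩
    refine bijOn_of_surjOn (fun x _ => ⟨_, rfl⟩) ?_
    intro y hy
    have hy' : y ∈ Set.range (χ e) := by
      rw [heq]
      exact hy
    obtain ⟨x, hx⟩ := hy'
    exact ⟨φ e x, ⟨x, rfl⟩, hx⟩
  have hb1 : ∀ e, Set.BijOn (φ e) (A e) (A e) := fun e => hbij _ hid e
  obtain ⟨N, hN⟩ : ∃ N, (Nat.card X).factorial = N + 1 :=
    Nat.exists_eq_succ_of_ne_zero (Nat.factorial_ne_zero _)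
  have hfam : ∀ n : ℕ, Fam1 R (fun e => (φ e)^[n]) := by
    intro n
    induction n with
    | zero => exact fun l p hp => hp
    | succ n ih =>
      intro l p hp
      have h := ih l _ (hφ l p hp)
      simpa only [Function.iterate_succ_apply] using h
  have hone : ∀ e, ∀ x ∈ A e, (φ e)^[(Nat.card X).factorial] x = x := fun e x hx =>
    iterate_factorial (hb1 e) hx
  have hmem : ∀ e x, (φ e)^[(Nat.card X).factorial] x ∈ A e := by
    intro e x
    rw [hN, Function.iterate_succ_apply']
    exact ⟨_, rfl⟩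
  have hran : ∀ e, Set.range ((φ e)^[(Nat.card X).factorial]) = A e := by
    intro e
    ext x
    constructor
    · rintro ⟨y, rfl⟩
      exact hmem e y
    · intro hx
      exact ⟨x, hone e x hx⟩
  refine ⟨fun e => (φ e)^[(Nat.card X).factorial], hfam _, fun e x => hone e _ (hmem e x), ?_⟩
  intro ψ hψ e
  simp only [hran]
  have h1 : (fun x => (φ e)^[(Nat.card X).factorial] (ψ e x)) =
      (φ e)^[N] ∘ fun x => φ e (ψ e x) := by
    funext x
    rw [hN, Function.iterate_succ_apply]
    rfl
  rw [h1]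
  exact ((hb1 e).iterate N).comp (hbij ψ hψ e)

end Pool.Agent.H18.GC
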