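import Pool.Agent.H53.GC.Targets

/-!
# Switching of families of functions on patterns
-/

set_option autoImplicit false

namespace Pool.Agent.H18.GC

open Pool.Agent.H53.GC Pool.Agent.H68.BP
open Classical

/-- A pattern is only used at the pairs of values of `τ`. -/
theorem pat_congr {V X : Type} {c : V → V → X} {m k : ℕ} {R : (Fin m → V) → Prop}
    {τ : Fin m → Fin k} {p p' : Prs k → X}
    (h : ∀ a b, (h : τ a ≤ τ b) → p ⟨(τ a, τ b), h⟩ = p' ⟨(τ a, τ b), h⟩)
    (hp : Pat c R τ p) : Pat c R τ p' := by
  obtain ⟨x, h1, h2, h3⟩ := hp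
  exact ⟨x, h1, h2, fun a b hab => (h3 a b hab).trans (h a b hab)⟩

/-- The type of a vertex can be read off from each pair which contains it. -/
theorem read_vertex {V X : Type} {c : V → V → X} {L Rt : X → X} (hT : Typed c L Rt) {m k : ℕ}
    {R : (Fin m → V) → Prop} {τ : Fin m → Fin k} {p : Prs k → X} (hp : Pat c R τ p)
    (v : Fin k) (a b : Fin m) (hab : τ a ≤ τ b) (hv : StK v ⟨(τ a, τ b), hab⟩) :
    rdK L Rt v ⟨(τ a, τ b), hab⟩ (p ⟨(τ a, τ b), hab⟩) = p (vsK v) := by
  obtain ⟨x, -, h2, h3⟩ := hp
  unfold rdK
  unfold StK at hv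
  simp only at hv ⊢
  by_cases e : τ a = τ b
  · rw [if_pos e]
    have hv' : τ a = v := by
      rcases hv with hv | hv
      · exact hv
      · exact e.trans hv
    have : (⟨(τ a, τ b), hab⟩ : Prs k) = vsK v := by
      apply Subtype.ext
      change (τ a, τ b) = (v, v)
      rw [← e, hv']
    rw [this]
  · rw [if_neg e]
    by_cases ha : τ a = v
    · rw [if_pos ha, ← h3 a b hab, ← hT.left (x a) (x b), h3 a a le_rfl]
      congr 1
      apply Subtype.ext
      change (τ a, τ a) = (v, v)
      rw [ha]
    · have hb : τ b = v := hv.resolve_left ha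
      rw [if_neg ha, ← h3 a b hab, ← hT.right (x a) (x b), h3 b b le_rfl]
      congr 1
      apply Subtype.ext
      change (τ b, τ b) = (v, v)
      rw [hb]

theorem pf_GEO : T_GEO := by
  intro σ V X 𝔸 M c L Rt k hM hT
  refine ⟨fun v => Or.inl rfl, fun v x => if_pos rfl, ?_, ?_, ?_⟩
  · -- compatibility
    rintro I F hF v ⟨⟨i, j⟩, hij⟩ hv w
    unfold StK at hv
    simp only at hv hij
    by_cases e : i = j
    · have hv' : i = v := by
        rcases hv with hv | hv
        · exact hv
        · exact e.trans hv
      subst hv'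
      subst e
      simp only [rdK, if_true]
      rfl
    · choose x y hxy using fun l => hT.surj (w l)
      let z : I → Fin k → V := fun l u => if u = i then x l else y l
      have hzi : ∀ l, z l i = x l := fun l => if_pos rfl
      have hzj : ∀ l, z l j = y l := fun l => if_neg (fun h => e h.symm)
      let a0 : Fin M := ⟨0, by omega⟩
      let a1 : Fin M := ⟨1, by omega⟩
      let τ : Fin (arP σ M (none : Option (Fin σ.m))) → Fin k :=
        fun a => if (a : ℕ) = 0 then i else j
      have h0 : τ a0 = i := if_pos rfl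
      have h1 : τ a1 = j := if_neg (by simp [a1])
      have h := hF ⟨none, τ⟩ (fun l e => c (z l e.1.1) (z l e.1.2)) (fun l =>
        ⟨fun a => z l (τ a), trivial, fun a b hab => congrArg (z l) hab, fun a b hab => rfl⟩)
      obtain ⟨x', -, -, h3⟩ := h
      simp only at h3
      have e01 : c (x' a0) (x' a1) = F ⟨(i, j), hij⟩ w := by
        have h4 := h3 a0 a1 (by rw [h0, h1]; exact hij)
        rw [h4]
        have h5 : (⟨(τ a0, τ a1), by rw [h0, h1]; exact hij⟩ : Prs k) = ⟨(i, j), hij⟩ := by
          apply Subtype.ext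
          change (τ a0, τ a1) = (i, j)
          rw [h0, h1]
        rw [h5]
        congr 1
        funext l
        rw [h0, h1, hzi, hzj, hxy]
      have e00 : c (x' a0) (x' a0) = F (vsK i) (fun l => L (w l)) := by
        have h4 := h3 a0 a0 le_rfl
        rw [h4]
        have h5 : (⟨(τ a0, τ a0), le_rfl⟩ : Prs k) = vsK i := by
          apply Subtype.ext
          change (τ a0, τ a0) = (i, i)
          rw [h0]
        rw [h5]
        congr 1
        funext l
        rw [h0, hzi, ← hxy, ← hT.left]
      have e11 : c (x' a1) (x' a1) = F (vsK j) (fun l => Rt (w l)) := by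
        have h4 := h3 a1 a1 le_rfl
        rw [h4]
        have h5 : (⟨(τ a1, τ a1), le_rfl⟩ : Prs k) = vsK j := by
          apply Subtype.ext
          change (τ a1, τ a1) = (j, j)
          rw [h1]
        rw [h5]
        congr 1
        funext l
        rw [h1, hzj, ← hxy, ← hT.right]
      unfold rdK
      simp only
      rw [if_neg e]
      by_cases hi : i = v
      · subst hi
        simp only [if_true, if_neg e]
        rw [← e01, ← hT.left, e00]
      · have hj : j = v := hv.resolve_left hi
        subst hj
        simp only [if_neg e]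
        rw [← e01, ← hT.right, e11]
  · -- switching at a vertex
    rintro I v F G hF hG hFG C ⟨s, τ⟩ p hp
    by_cases hC : C (fun i => p i (vsK v))
    · refine pat_congr ?_ (hF ⟨s, τ⟩ p hp)
      intro a b hab
      simp only
      by_cases hv : StK v ⟨(τ a, τ b), hab⟩
      · have : (fun i => rdK L Rt v ⟨(τ a, τ b), hab⟩ (p i ⟨(τ a, τ b), hab⟩)) =
            fun i => p i (vsK v) := by
          funext i
          exact read_vertex hT (hp i) v a b hab hv
        rw [this, if_pos hC]
      · rw [← hFG _ hv, ite_self]
    · refine pat_congr ?_ (hG ⟨s, τ⟩ p hp)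
      intro a b hab
      simp only
      by_cases hv : StK v ⟨(τ a, τ b), hab⟩
      · have : (fun i => rdK L Rt v ⟨(τ a, τ b), hab⟩ (p i ⟨(τ a, τ b), hab⟩)) =
            fun i => p i (vsK v) := by
          funext i
          exact read_vertex hT (hp i) v a b hab hv
        rw [this, if_neg hC]
      · rw [hFG _ hv, ite_self]
  · -- switching at a pair
    rintro I e - F G hF hG hFG C ⟨s, τ⟩ p hp
    by_cases hC : C (fun i => p i e)
    · refine pat_congr ?_ (hF ⟨s, τ⟩ p hp)
      intro a b hab
      simp only
      by_cases he : (⟨(τ a, τ b), hab⟩ : Prs k) = e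
      · rw [he, if_pos hC]
      · rw [← hFG _ he, ite_self]
    · refine pat_congr ?_ (hG ⟨s, τ⟩ p hp)
      intro a b hab
      simp only
      by_cases he : (⟨(τ a, τ b), hab⟩ : Prs k) = e
      · rw [he, if_neg hC]
      · rw [hFG _ he, ite_self]

end Pool.Agent.H18.GC
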