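import Pool.Agent.H53.GC.Targets

/-!
# The limit of Olšák families
-/

set_option autoImplicit false

namespace Pool.Agent.H18.GC

open Pool.Agent.H53.GC Pool.Agent.H53.RG Pool.Agent.H68.BP Pool.Agent.H58.SF
open Classical

/-- Polymorphisms of structures whose symbols and positions are indexed by finite types. -/
theorem isPoly_strOn {S : Type} {Ar : S → Type} [Finite S] [∀ s, Finite (Ar s)] {Y Y' : Type}
    (R : (s : S) → (Ar s → Y) → Prop) (R' : (s : S) → (Ar s → Y') → Prop) {I : Type}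
    (f : (I → Y) → Y') (h : ∀ s (x : I → Ar s → Y), (∀ i, R s (x i)) →
      R' s (fun q => f (fun i => x i q))) : IsPoly (strOn R) (strOn R') f :=
  fun l x hx => h ((Finite.equivFin S).symm l)
    (fun i p => x i (Finite.equivFin (Ar ((Finite.equivFin S).symm l)) p)) hx

/-- One function for all pairs `i < j` and one for all pairs `(i, i)`. -/
theorem uniform {κ : Type} [Finite κ] [Nonempty κ] (F : (k : ℕ) → Prs k → κ) :
    ∃ f g : κ, ∀ m : ℕ, ∃ (k : ℕ) (ι : Fin m → Fin k), StrictMono ι ∧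
      ∀ i j, (h : ι i ≤ ι j) → F k ⟨(ι i, ι j), h⟩ = if i = j then g else f := by
  let U : Ultrafilter ℕ := Filter.hyperfilter ℕ
  have hU : ∀ n : ℕ, ∀ᶠ k in (U : Filter ℕ), n < k := by
    intro n
    have h2 : (Filter.hyperfilter ℕ : Filter ℕ) ≤ Filter.cofinite :=
      Filter.hyperfilter_le_cofinite
    rw [Nat.cofinite_eq_atTop] at h2
    exact h2 (Filter.eventually_gt_atTop n)
  let G : ℕ → ℕ → ℕ → κ := fun k i j =>
    if h : i ≤ j ∧ j < k then F k ⟨(⟨i, h.1.trans_lt h.2⟩, ⟨j, h.2⟩), h.1⟩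
      else Classical.arbitrary κ
  let g : ℕ → ℕ → κ := fun i j => ulim U (fun k => G k i j)
  let h : ℕ → κ := fun i => ulim U (fun j => g i j)
  let f : κ := ulim U h
  let g' : κ := ulim U (fun i => g i i)
  obtain ⟨ι, h1, h2⟩ := exists_seq_of_forall_finset_exists
    (fun i => h i = f ∧ g i i = g') (fun i j => i < j ∧ g i j = f) (by
      intro s hs
      have e1 : ∀ᶠ j in (U : Filter ℕ), ∀ i ∈ s, i < j ∧ g i j = f := by
        rw [Filter.eventually_all_finset]
        intro i hi
        refine (hU i).and ?_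
        have := ulim_spec U (fun j => g i j)
        rw [show ulim U (fun j => g i j) = f from (hs i hi).1] at this
        exact this
      obtain ⟨y, hy1, hy2, hy3⟩ :=
        ((ulim_spec U h).and ((ulim_spec U (fun i => g i i)).and e1)).exists
      exact ⟨y, ⟨hy1, hy2⟩, hy3⟩)
  have hmono : StrictMono ι := fun a b hab => (h2 a b hab).1
  refine ⟨f, g', fun m => ?_⟩
  have e2 : ∀ᶠ k in (U : Filter ℕ), ∀ i ∈ Finset.range m, ∀ j ∈ Finset.range m,
      ι j < k ∧ G k (ι i) (ι j) = g (ι i) (ι j) := by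
    rw [Filter.eventually_all_finset]
    intro i _
    rw [Filter.eventually_all_finset]
    intro j _
    exact (hU (ι j)).and (ulim_spec U (fun k => G k (ι i) (ι j)))
  obtain ⟨k, hk⟩ := e2.exists
  have hlt : ∀ i : Fin m, ι i < k := fun i =>
    (hk i (Finset.mem_range.2 i.2) i (Finset.mem_range.2 i.2)).1
  refine ⟨k, fun i => ⟨ι i, hlt i⟩, fun i j hij => hmono hij, ?_⟩
  intro i j hij
  have hij' : (i : ℕ) ≤ j := hmono.le_iff_le.1 hij
  have e3 := (hk i (Finset.mem_range.2 i.2) j (Finset.mem_range.2 j.2)).2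
  have e4 : G k (ι i) (ι j) = F k ⟨(⟨ι i, hlt i⟩, ⟨ι j, hlt j⟩), hij⟩ :=
    dif_pos ⟨hij, hlt j⟩
  rw [← e4, e3]
  by_cases e : i = j
  · subst e
    rw [if_pos rfl]
    exact (h1 i).2
  · rw [if_neg e]
    have : (i : ℕ) < j := lt_of_le_of_ne hij' (fun h => e (Fin.ext h))
    exact (h2 i j this).2

theorem pf_LIM : T_LIM := by
  intro σ V X 𝔸 M c hX hX' hF
  choose F hF1 hF2 using hF
  obtain ⟨f, g, hfg⟩ := uniform (κ := (Fin 6 → X) → X) F
  have hf : ∀ x y r, f (pat r x y) = f (pat 0 x y) := by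
    intro x y r
    obtain ⟨k, ι, h1, h2⟩ := hfg 2
    have h3 : ι 0 ≤ ι 1 := (h1 (by decide : (0 : Fin 2) < 1)).le
    have h4 := h2 0 1 h3
    rw [if_neg (by decide)] at h4
    rw [← h4]
    exact hF2 k _ x y r
  have hg : ∀ x y r, g (pat r x y) = g (pat 0 x y) := by
    intro x y r
    obtain ⟨k, ι, h1, h2⟩ := hfg 2
    have h4 := h2 0 0 le_rfl
    rw [if_pos rfl] at h4
    rw [← h4]
    exact hF2 k _ x y r
  let x0 : X := Classical.arbitrary X
  let o : (Fin 6 → X × Bool) → X × Bool := fun w =>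
    if ∀ l, (w l).2 = true then (g (fun l => (w l).1), true) else
      if ∀ l, (w l).2 = false then (f (fun l => (w l).1), false) else (x0, true)
  have ho1 : ∀ w, (∀ l, (w l).2 = true) → o w = (g (fun l => (w l).1), true) := by
    intro w hw
    exact if_pos hw
  have ho2 : ∀ w, (∀ l, (w l).2 = false) → o w = (f (fun l => (w l).1), false) := by
    intro w hw
    have h1 : ¬ ∀ l, (w l).2 = true := by
      intro h
      have h2 := h 0
      rw [hw 0] at h2
      exact Bool.false_ne_true h2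
    simp only [o]
    rw [if_neg h1, if_pos hw]
  have ho3 : ∀ w, (¬ ∀ l, (w l).2 = true) → (¬ ∀ l, (w l).2 = false) → o w = (x0, true) := by
    intro w h1 h2
    simp only [o]
    rw [if_neg h1, if_neg h2]
  have ho : ∀ x y r, o (pat r x y) = o (pat 0 x y) := by
    intro x y r
    have hs : ∀ (r : Fin 3) (b : Bool), (∀ l, (pat r x y l).2 = b) ↔ (x.2 = b ∧ y.2 = b) := by
      intro r b
      constructor
      · intro h
        have h0 := h 0
        have h1 := h 1
        have h2 := h 2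
        have h3 := h 3
        have h4 := h 4
        have h5 := h 5
        fin_cases r
        · exact ⟨h0, h2⟩
        · exact ⟨h0, h1⟩
        · exact ⟨h1, h0⟩
      · rintro ⟨h1, h2⟩ l
        have := pat_map (fun z : X × Bool => z.2) r x y l
        simp only [h1, h2] at this
        rw [this]
        simp only [pat]
        fin_cases r <;> fin_cases l <;> rfl
    have hm : ∀ r : Fin 3, (fun l => (pat r x y l).1) = pat r x.1 y.1 := by
      intro r
      funext l
      exact pat_map (fun z : X × Bool => z.1) r x y l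
    by_cases ht : x.2 = true ∧ y.2 = true
    · rw [ho1 _ ((hs r true).2 ht), ho1 _ ((hs 0 true).2 ht), hm, hm, hg]
    · by_cases hf' : x.2 = false ∧ y.2 = false
      · rw [ho2 _ ((hs r false).2 hf'), ho2 _ ((hs 0 false).2 hf'), hm, hm, hf]
      · rw [ho3 _ (fun h => ht ((hs r true).1 h)) (fun h => hf' ((hs r false).1 h)),
          ho3 _ (fun h => ht ((hs 0 true).1 h)) (fun h => hf' ((hs 0 false).1 h))]
  refine ⟨o, ?_, fun x y => ⟨(ho x y 1).symm, (ho x y 1).trans (ho x y 2).symm⟩⟩
  refine isPoly_strOn _ _ o ?_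
  rintro ⟨s, τ⟩ q hq
  simp only at q hq ⊢
  choose z hz1 hz2 hz3 using hq
  obtain ⟨k, ι, h1, h2⟩ := hfg (arP σ M s)
  let E : Fin (arP σ M s) × Fin (arP σ M s) → Fin k × Fin k := fun ij => (ι ij.1, ι ij.2)
  have hE : Function.Injective E := by
    rintro ⟨a, b⟩ ⟨a', b'⟩ h
    simp only [E, Prod.mk.injEq] at h
    rw [h1.injective h.1, h1.injective h.2]
  have h3 := hF1 k ⟨s, fun a => ι (τ a)⟩
    (fun l e => Function.extend E (fun ij => (q l ij).1) (fun _ => x0) e.1) (fun l =>
      ⟨z l, hz1 l, fun a b hab => hz2 l a b (h1.injective hab), fun a b hab => by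
        have h4 := hz3 l a b (h1.le_iff_le.1 hab)
        have h5 := hE.extend_apply (fun ij => (q l ij).1) (fun _ => x0) (τ a, τ b)
        exact (congrArg Prod.fst h4).symm.trans h5.symm⟩)
  obtain ⟨x, hx1, hx2, hx3⟩ := h3
  refine ⟨x, hx1, fun a b hab => hx2 a b (congrArg ι hab), ?_⟩
  intro a b hab
  have h4 := hx3 a b (h1.monotone hab)
  have h5 : ∀ l, Function.extend E (fun ij => (q l ij).1) (fun _ => x0) (ι (τ a), ι (τ b)) =
      (q l (τ a, τ b)).1 := fun l => hE.extend_apply (fun ij => (q l ij).1) (fun _ => x0) (τ a, τ b)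
  simp only [h5] at h4
  rw [h2] at h4
  have h6 : ∀ l, (q l (τ a, τ b)).2 = decide (τ a = τ b) := fun l =>
    congrArg Prod.snd (hz3 l a b hab)
  by_cases e : τ a = τ b
  · rw [if_pos e] at h4
    rw [ho1 _ (fun l => by rw [h6 l, decide_eq_true e])]
    rw [← h4, decide_eq_true e]
  · rw [if_neg e] at h4
    rw [ho2 _ (fun l => by rw [h6 l, decide_eq_false e])]
    rw [← h4, decide_eq_false e]

end Pool.Agent.H18.GC
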