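import Pool.Agent.H53.GC.Targets

/-!
# The homomorphism to the projections
-/

set_option autoImplicit false

namespace Pool.Agent.H18.GC

open Pool.Agent.H53.GC Pool.Agent.H68.BP
open Classical

variable {𝓔 X 𝓛 : Type} {R : 𝓛 → (𝓔 → X) → Prop} {ρ : 𝓔 → X → X}

/-- the projections -/
theorem ifam_proj (hρ : CoreRet R ρ) {I : Type} (b : I) :
    IFam R ρ I (fun e w => ρ e (w b)) where
  fam := fun l p hp => hρ.fam l (p b) (hp b)
  left := fun e w => hρ.idem e (w b)
  right := fun e w => hρ.idem e (w b)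
  idem := fun _ _ => rfl

/-- composition -/
theorem ifam_comp (hρ : CoreRet R ρ) {I J : Type} {Q : 𝓔 → (I → X) → X}
    {F : I → 𝓔 → (J → X) → X} (hQ : IFam R ρ I Q) (hF : ∀ a, IFam R ρ J (F a)) :
    IFam R ρ J (fun e w => Q e (fun a => F a e w)) where
  fam := fun l p hp => hQ.fam l (fun a e => F a e (fun i => p i e))
    (fun a => (hF a).fam l p hp)
  left := fun e _ => hQ.left e _
  right := fun e w => by
    congr 1
    funext a
    exact (hF a).right e w
  idem := fun e t => by
    have h : (fun a => F a e (fun _ => t)) = fun _ : I => ρ e t := by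
      funext a
      exact (hF a).idem e t
    simp only [h, hQ.idem, hρ.idem]

/-- minors -/
theorem ifam_minor {I J : Type} {Q : 𝓔 → (I → X) → X} (hQ : IFam R ρ I Q) (π : I → J) :
    IFam R ρ J (fun e w => Q e (fun a => w (π a))) where
  fam := fun l p hp => hQ.fam l (fun a => p (π a)) (fun a => hp (π a))
  left := fun e _ => hQ.left e _
  right := fun e _ => hQ.right e _
  idem := fun e t => hQ.idem e t

/-- One idempotent family which has all given binary idempotent families as minors. -/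
theorem exists_star (hρ : CoreRet R ρ) {B : Type} (F : B → 𝓔 → (Fin 2 → X) → X)
    (hF : ∀ b, IFam R ρ (Fin 2) (F b)) (S : Finset B) :
    ∃ Ω : 𝓔 → ((B → Fin 2) → X) → X, IFam R ρ (B → Fin 2) Ω ∧
      ∀ b ∈ S, ∀ e (y : Fin 2 → X), Ω e (fun c => y (c b)) = F b e y := by
  induction S using Finset.induction_on with
  | empty => exact ⟨_, ifam_proj hρ (fun _ => 0), fun b hb => absurd hb (by simp)⟩
  | insert b₀ S hb₀ ih =>
    obtain ⟨Ω, h1, h2⟩ := ih
    refine ⟨fun e x => Ω e (fun c => F b₀ e (fun i => x (Function.update c b₀ i))), ?_, ?_⟩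
    · exact ifam_comp hρ h1 (fun c => ifam_minor (hF b₀) (fun i => Function.update c b₀ i))
    · intro b hb e y
      simp only
      by_cases h : b = b₀
      · subst h
        have h3 : (fun c : B → Fin 2 => F b e (fun i => y (Function.update c b i b))) =
            fun _ => F b e y := by
          funext c
          congr 1
          funext i
          rw [Function.update_self]
        rw [h3, h1.idem, (hF b).left]
      · have hb' : b ∈ S := (Finset.mem_insert.1 hb).resolve_left h
        have h3 : (fun c : B → Fin 2 => F b₀ e (fun i => y (Function.update c b₀ i b))) =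
            fun c => ρ e (y (c b)) := by
          funext c
          rw [← (hF b₀).idem e (y (c b))]
          congr 1
          funext i
          rw [Function.update_of_ne h]
        rw [h3, h1.right, h2 b hb']

theorem pf_OMG : T_OMG := by
  rintro 𝓔 X 𝓛 _ _ R ρ hρ ⟨Z, hZ1, hZ2⟩
  let B : Type := {F : 𝓔 → (Fin 2 → X) → X // IFam R ρ (Fin 2) F}
  have : Finite B := Subtype.finite
  have : Fintype B := Fintype.ofFinite B
  obtain ⟨Ω, hΩ1, hΩ2⟩ := exists_star hρ (B := B) (fun b => b.1) (fun b => b.2) Finset.univ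
  obtain ⟨cs, hcs⟩ := hZ1 (B → Fin 2) Ω hΩ1.fam
  have hkey : ∀ (b : B) (j : Fin 2), Z (Fin 2) b.1 j → cs b = j := by
    intro b j hj
    refine hZ2 (B → Fin 2) (Fin 2) (fun c => c b) Ω cs j hΩ1.fam hcs ?_
    have : (fun e (x : Fin 2 → X) => Ω e (fun c => x (c b))) = b.1 := by
      funext e x
      exact hΩ2 b (Finset.mem_univ b) e x
    rw [this]
    exact hj
  refine ⟨fun F => if h : IFam R ρ (Fin 2) F then cs ⟨F, h⟩ else 0, ?_, ?_⟩
  · intro b
    have h1 : IFam R ρ (Fin 2) (fun e w => ρ e (w b)) := ifam_proj hρ b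
    simp only [h1, dif_pos]
    obtain ⟨j, hj⟩ := hZ1 (Fin 2) _ h1.fam
    rw [hkey ⟨_, h1⟩ j hj]
    have h2 : IFam R ρ Unit (fun e w => ρ e (w ())) := ifam_proj hρ ()
    obtain ⟨u, hu⟩ := hZ1 Unit _ h2.fam
    exact (hZ2 Unit (Fin 2) (fun _ => b) _ u j h2.fam hu hj).symm
  · intro n Q hQ
    let ΩQ : 𝓔 → ((Fin n × (B → Fin 2)) → X) → X :=
      fun e x => Q e (fun a => Ω e (fun c => x (a, c)))
    have hΩQ : IFam R ρ (Fin n × (B → Fin 2)) ΩQ :=
      ifam_comp hρ hQ (fun a => ifam_minor hΩ1 (fun c => (a, c)))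
    obtain ⟨⟨i, c'⟩, hi⟩ := hZ1 _ ΩQ hΩQ.fam
    have hc' : c' = cs := by
      refine hZ2 (Fin n × (B → Fin 2)) (B → Fin 2) Prod.snd ΩQ (i, c') cs hΩQ.fam hi ?_
      have : (fun e (x : (B → Fin 2) → X) => ΩQ e (fun u => x u.2)) = Ω := by
        funext e x
        simp only [ΩQ]
        rw [hQ.idem, hΩ1.left]
      rw [this]
      exact hcs
    subst hc'
    refine ⟨i, fun F hF => ?_⟩
    have hW : IFam R ρ (Fin 2) (fun e w => Q e (fun a => F a e w)) := ifam_comp hρ hQ hF
    simp only [hW, hF i, dif_pos]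
    obtain ⟨j, hj⟩ := hZ1 (Fin 2) _ hW.fam
    rw [hkey ⟨_, hW⟩ j hj]
    refine (hZ2 (Fin n × (B → Fin 2)) (Fin 2) (fun u => u.2 ⟨F u.1, hF u.1⟩) ΩQ (i, c') j
      hΩQ.fam hi ?_).symm
    have : (fun e (x : Fin 2 → X) => ΩQ e (fun u => x (u.2 ⟨F u.1, hF u.1⟩))) =
        fun e w => Q e (fun a => F a e w) := by
      funext e x
      simp only [ΩQ]
      congr 1
      funext a
      exact hΩ2 ⟨F a, hF a⟩ (Finset.mem_univ _) e x
    rw [this]
    exact hj

end Pool.Agent.H18.GC
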